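import Mathlib
import Pool.Agent.Helper38.VdW.Main

set_option autoImplicit false

namespace Pool.Agent.Results.MP_002a71_co.LinearFactor

open Pool.Agent.Helper38.VdW

/-- The first player wins the `(N, n)` van der Waerden game as soon as `N ≥ (1/2 + ε) n 2^n` and
`n` is large; hence for all `n ≤ log₂ N - log₂ log₂ N - C`. -/
theorem result :
    (∀ ε : ℝ, 0 < ε → ∃ n₀ : ℕ, ∀ n ≥ n₀, ∀ N : ℕ,
      (1 / 2 + ε) * n * 2 ^ n ≤ (N : ℝ) → FirstPlayerWins N n) ∧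
    (∃ C : ℝ, ∀ N : ℕ, 2 ≤ N → ∀ n : ℕ,
      (n : ℝ) ≤ Real.logb 2 N - Real.logb 2 (Real.logb 2 N) - C → FirstPlayerWins N n) :=
  ⟨main_one, main_two⟩

end Pool.Agent.Results.MP_002a71_co.LinearFactor
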