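import Mathlib
import Pool.Agent.Helper38.VdW.Main
import Pool.Agent.Helper49.VW.Final

set_option autoImplicit false

namespace Pool.Agent.Results.MP_002a71_co.LogLogError

open Pool.Agent.Helper38.VdW Pool.Agent.Helper49.VW

/-- The second player can prevent a Weak Win in the `(N, n)` van der Waerden game if
`N ≤ 2 ^ n / (2 n) ^ C`; hence `A([N]; A.P.) = log₂ N + O(log₂ log₂ N)`. -/
theorem result :
    (∀ n : ℕ, 10 ^ 14 ≤ n → ∀ N : ℕ, N * (2 * n) ^ 24000500 ≤ 2 ^ n → ¬ FirstPlayerWins N n) ∧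
    (∀ N : ℕ, 4 ≤ N → ∀ n : ℕ, FirstPlayerWins N n →
      (n : ℝ) ≤ Real.logb 2 N + 10 ^ 14 * Real.logb 2 (Real.logb 2 N)) ∧
    (∃ C : ℝ, ∀ N : ℕ, 4 ≤ N → ∀ n : ℕ,
      (FirstPlayerWins N n → (n : ℝ) ≤ Real.logb 2 N + C * Real.logb 2 (Real.logb 2 N)) ∧
      ((n : ℝ) ≤ Real.logb 2 N - C * Real.logb 2 (Real.logb 2 N) → FirstPlayerWins N n)) := by
  have h1 : ∀ n : ℕ, 10 ^ 14 ≤ n → ∀ N : ℕ, N * (2 * n) ^ 24000500 ≤ 2 ^ n →
      ¬ FirstPlayerWins N n := by
    intro n hn N hN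
    have e : (100000000000000 : ℕ) = 10 ^ 14 := by norm_num
    exact breaker_wins_pow n (e ▸ hn) N hN
  have h2 : ∀ N : ℕ, 4 ≤ N → ∀ n : ℕ, FirstPlayerWins N n →
      (n : ℝ) ≤ Real.logb 2 N + 10 ^ 14 * Real.logb 2 (Real.logb 2 N) := by
    intro N hN n h
    have := upper_bound N hN n h
    have e : (100000000000000 : ℝ) = 10 ^ 14 := by norm_num
    rw [e] at this
    exact this
  refine ⟨h1, h2, ?_⟩
  obtain ⟨C, hC⟩ := main_two
  refine ⟨max (10 ^ 14) (1 + |C|), ?_⟩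
  intro N hN n
  have hNr : (4 : ℝ) ≤ (N : ℝ) := by exact_mod_cast hN
  have hlog : (2 : ℝ) ≤ Real.logb 2 N := by
    rw [Real.le_logb_iff_rpow_le (by norm_num) (by linarith)]
    norm_num
    exact hN
  have hll : (1 : ℝ) ≤ Real.logb 2 (Real.logb 2 N) := by
    rw [Real.le_logb_iff_rpow_le (by norm_num) (by linarith)]
    simpa using hlog
  constructor
  · intro h
    have := h2 N hN n h
    have hm : (10 : ℝ) ^ 14 * Real.logb 2 (Real.logb 2 N) ≤
        max (10 ^ 14) (1 + |C|) * Real.logb 2 (Real.logb 2 N) :=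
      mul_le_mul_of_nonneg_right (le_max_left _ _) (by linarith)
    linarith
  · intro h
    apply hC N (by omega) n
    have hm : (1 + |C|) * Real.logb 2 (Real.logb 2 N) ≤
        max (10 ^ 14) (1 + |C|) * Real.logb 2 (Real.logb 2 N) :=
      mul_le_mul_of_nonneg_right (le_max_right _ _) (by linarith)
    have hC' : C ≤ |C| * Real.logb 2 (Real.logb 2 N) :=
      le_trans (le_abs_self C) (le_mul_of_one_le_right (abs_nonneg C) hll)
    nlinarith

end Pool.Agent.Results.MP_002a71_co.LogLogError
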